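import Pool.Agent.Lib.MP_6aab98_ag.GT.Main

/-! # MP_6aab98_ag: the asymptotics of the higher genus plane curve counts, all genera

`Ng g d` is the number of plane curves of degree `d` and genus `g ≥ 2` through `3 d - 1 + g`
points, through the formula of Givental and Teleman for the Gromov-Witten potential `Fg g` of the
projective plane; `N0 d` is given by Kontsevich's recursion. -/

namespace Pool.Agent.Results.MP_6aab98_ag.AllGenera

open Filter Topology Pool.Agent.PlaneGT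
open scoped Nat

/-- There are `0 < b < 1` and `κ > 0` such that `(N_{0,d} / (3 d - 1)!) ^ (1/d)` converges to `b`
and for every genus `g ≥ 2` the potential `Fg g` is holomorphic for `0 < |q| < 1/b` and
`N_{g,d} / (3 d - 1 + g)! ∼ a_g b ^ d d ^ ((5 g - 7) / 2)` with
`a_g = w_g κ ^ (g - 1) / ((3 g - 3)! Γ((5 g - 5) / 2)) > 0`, where `w_g = ⟨τ_2 ^ (3 g - 3)⟩_g`. -/
theorem result : ∃ b κ : ℝ, 0 < b ∧ b < 1 ∧ 0 < κ ∧
    Tendsto (fun d : ℕ => ((N0 d : ℝ) / ((3 * d - 1)! : ℝ)) ^ (1 / (d : ℝ))) atTop (𝓝 b) ∧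
    ∀ g : ℕ, 2 ≤ g →
      (∀ q : ℂ, q ≠ 0 → ‖q‖ < 1 / b → DifferentiableAt ℂ (Fg g) q) ∧
      0 < wk g (List.replicate (3 * g - 3) 2) ∧
      Tendsto (fun d : ℕ => (Ng g d / ((3 * d - 1 + g)! : ℝ)) /
        (b ^ d * (d : ℝ) ^ ((5 * (g : ℝ) - 7) / 2))) atTop
        (𝓝 ((wk g (List.replicate (3 * g - 3) 2) : ℝ) * κ ^ (g - 1) /
          (((3 * g - 3)! : ℝ) * Real.Gamma ((5 * (g : ℝ) - 5) / 2)))) :=
  main

end Pool.Agent.Results.MP_6aab98_ag.AllGenera
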