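import Pool.Agent.Lib.MP_6aab98_ag.Up5

/-! # MP_6aab98_ag: the exponential growth rate of the plane curve counts exists, is positive and
finite and is the same in every genus -/

namespace Pool.Agent.Results.MP_6aab98_ag.ExpRate

open Filter Topology Pool.Agent.FloorDiag
open scoped Nat

/-- There is `b > 0` such that `(N_{g,d} / (3 d - 1 + g)!) ^ (1/d)` converges to `b` for every
genus `g ≥ 0`. -/
theorem result : ∃ b : ℝ, 0 < b ∧ ∀ g : ℕ,
    Tendsto (fun d : ℕ => ((N g d : ℝ) / ((3 * d - 1 + g)! : ℝ)) ^ (1 / (d : ℝ)))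
      atTop (𝓝 b) :=
  main

end Pool.Agent.Results.MP_6aab98_ag.ExpRate
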